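import Mathlib
import Pool.Agent.H79.ArrDefs
import Pool.Agent.H79.Arr5

set_option autoImplicit false

open Pool.Agent.H79.ArrDefs Pool.Agent.H79.Arr

/-- Two arrangements of twelve hyperplanes in complex projective four-space with isomorphic
intersection lattices, one stably free and the other not. -/
theorem Pool.Agent.Results.MP_48904d_ag.NotComb.result :
    ∃ α β : Fin 12 → Fin (4 + 1) → ℂ, IsArrangement α ∧ IsArrangement β ∧
      Nonempty (InterLattice α ≃o InterLattice β) ∧ StablyFree α ∧ ¬ StablyFree β := by
  obtain ⟨r, hr⟩ := exists_root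
  have h := sameInc r hr
  have h4 : IsArrangement (C11 (4 : ℂ)) := isArr_four
  have hs := isArr_transfer (fun s j => (h s j).symm) h4
  exact ⟨ext (C11 r), ext (C11 4), isArr_ext hs, isArr_ext h4, lattice_iso (sameInc_ext h),
    stablyFree_of_pd _ (isArr_ext hs).1 (by omega) (pd_ext _ 3 (special_MM r hr).1),
    not_stablyFree _ (isArr_ext h4).1 _ B_notMem B_smul_mem⟩
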